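import Mathlib
import Pool.Agent.Apo.Defs
import Pool.Agent.Apo.Proof

namespace Pool.Agent.Results.MP_281dd0_co.Apollonian

open Finset Pool.Agent.Apo

universe u

/-- Every finite graph `G` that contains a spanning Apollonian network has a spanning tree `T` of
maximum degree at most three with total excess from two at most `max ((|G| - 11) / 3) 0`. -/
theorem result {V : Type u} [Fintype V] [DecidableEq V] (G : SimpleGraph V)
    (hG : HasSpanningApollonian G) :
    ∃ T : SimpleGraph V, T ≤ G ∧ T.IsTree ∧ (∀ v, (T.neighborSet v).ncard ≤ 3) ∧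
      3 * ∑ v, ((T.neighborSet v).ncard - 2) ≤ Fintype.card V - 11 := by
  obtain ⟨δ, h1, h2, h3⟩ := good_of_apollonian hG
  obtain ⟨T, t1, t2, t3⟩ := h1.final
  refine ⟨T, t1, t2, fun v => ?_, ?_⟩
  · rw [t3]; exact h2 v
  · have : ∑ v, ((T.neighborSet v).ncard - 2) = ∑ v, (δ v - 2) :=
      Finset.sum_congr rfl fun v _ => by rw [t3]
    rw [this]; exact h3

end Pool.Agent.Results.MP_281dd0_co.Apollonian
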